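import Mathlib

open Complex MeasureTheory Filter Topology Set Metric
open scoped Real ENNReal

namespace Pool.Agent.H902R3.XI

/-- the function `Φ` -/
noncomputable def Phi (t : ℝ) : ℝ :=
  2 * ∑' n : ℕ, (2 * π ^ 2 * ((n : ℝ) + 1) ^ 4 * Real.exp (9 * t / 2)
    - 3 * π * ((n : ℝ) + 1) ^ 2 * Real.exp (5 * t / 2)) *
      Real.exp (-π * ((n : ℝ) + 1) ^ 2 * Real.exp (2 * t))

/-- the deformed Xi function `Ξ_λ(z) = ∫ Φ(t) e^{λt²} e^{izt} dt` -/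
noncomputable def Xi (lam : ℝ) (z : ℂ) : ℂ :=
  ∫ t : ℝ, ((Phi t * Real.exp (lam * t ^ 2) : ℝ) : ℂ) * cexp (I * z * t)

/-- number of zeros of `f` in `S`, with multiplicity -/
noncomputable def cnt (f : ℂ → ℂ) (S : Set ℂ) : ℝ≥0∞ :=
  ∑' z : S, ((analyticOrderAt f (z : ℂ) : ℕ∞) : ℝ≥0∞)

/-- `Ξ_{-τ}` in the variable `s = 1/2 + i z` -/
noncomputable def X (τ : ℝ) (s : ℂ) : ℂ :=
  ∫ t : ℝ, ((Phi t * Real.exp (-τ * t ^ 2) : ℝ) : ℂ) * cexp ((s - 1 / 2) * t)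

/-- the first term of the theta series -/
noncomputable def phi (t : ℝ) : ℝ :=
  2 * (2 * π ^ 2 * Real.exp (9 * t / 2) - 3 * π * Real.exp (5 * t / 2)) *
    Real.exp (-π * Real.exp (2 * t))

/-- `g(s) = s(s-1)/2 π^{-s/2} Γ(s/2)`, so that `ξ = g ζ` and
`g(s) = ∫ phi(t) e^{(s-1/2)t} dt` for `Re s > -2`. -/
noncomputable def g (s : ℂ) : ℂ := s * (s - 1) / 2 * (π : ℂ) ^ (-s / 2) * Gamma (s / 2)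

/-- `a(s) = (1/2) log (s/2π)` -/
noncomputable def a (s : ℂ) : ℂ := log (s / (2 * π)) / 2

noncomputable def E (τ : ℝ) (s : ℂ) : ℂ := g s * cexp (-τ * (a s) ^ 2)

/-- `ℓ = log (n+1)` -/
noncomputable def ell (n : ℕ) : ℝ := Real.log ((n : ℝ) + 1)

/-- the `n+1`-st term of `X` -/
noncomputable def Tm (τ : ℝ) (n : ℕ) (s : ℂ) : ℂ :=
  ∫ t : ℝ, ((Real.exp (-ell n / 2) * phi (t + ell n) * Real.exp (-τ * t ^ 2) : ℝ) : ℂ) *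
    cexp ((s - 1 / 2) * t)

/-- `L = (1/2) log (T/2π)` -/
noncomputable def LL (T : ℝ) : ℝ := Real.log (T / (2 * π)) / 2

noncomputable def W (τ T : ℝ) (s : ℂ) : ℂ :=
  ∑' n : ℕ, cexp (-s * ell n - τ * (ell n) ^ 2 + 2 * τ * ell n * (LL T + π / 4 * I))

noncomputable def Wp (τ T σ : ℝ) : ℝ :=
  ∑' n : ℕ, Real.exp (-σ * ell n - τ * (ell n) ^ 2 + 2 * τ * ell n * LL T)

/-! ### the tasks -/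

/-- A1: `X = Σ Tm`. -/
def TaskA1 : Prop := ∀ τ : ℝ, 0 < τ → ∀ s : ℂ,
  (Summable fun n => ‖Tm τ n s‖) ∧ X τ s = ∑' n, Tm τ n s

/-- A2: Mellin inversion for each term. -/
def TaskA2 : Prop := ∀ τ : ℝ, 0 < τ → ∀ (s : ℂ) (n : ℕ) (c : ℝ), 0 < s.re + c →
  Integrable (fun v : ℝ => g (s + (c + v * I)) * cexp (-(s + (c + v * I)) * ell n) *
      cexp ((c + v * I) ^ 2 / (4 * τ))) ∧
  Tm τ n s = ((4 * π * τ) ^ (-(1 / 2) : ℝ) : ℝ) *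
    ∫ v : ℝ, g (s + (c + v * I)) * cexp (-(s + (c + v * I)) * ell n) *
      cexp ((c + v * I) ^ 2 / (4 * τ))

/-- the region -/
def InR (B T : ℝ) (s : ℂ) : Prop := T / 2 ≤ s.im ∧ s.im ≤ 2 * T ∧ |s.re| ≤ B * Real.log T

/-- G1: `g` is analytic and non-zero in the upper half plane; ratio asymptotics. -/
def TaskG : Prop := ∀ B : ℝ, 0 < B → ∃ C : ℝ, 0 < C ∧ ∃ T₀ : ℝ, ∀ T : ℝ, T₀ ≤ T →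
  ∀ s s' : ℂ, InR B T s → InR B T s' → ∃ e : ℂ,
    g s' = g s * cexp ((s' - s) * a s + e) ∧
    ‖e‖ ≤ C * (‖s' - s‖ ^ 2 + ‖s' - s‖ * Real.log T) / T

/-- crude upper bound for `g` -/
def TaskGup : Prop := ∀ B : ℝ, 0 < B → ∃ T₀ : ℝ, ∀ T : ℝ, T₀ ≤ T →
  ∀ s : ℂ, 1 / 2 ≤ s.re → s.re ≤ B * Real.log T →
    ‖g s‖ ≤ (1 + ‖s‖) ^ 2 * Real.exp ((Real.log T) ^ 2)

/-- crude lower bound for `g` (may use `TaskG`) -/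
def TaskGlow : Prop := ∀ B : ℝ, 0 < B → ∃ C : ℝ, 0 < C ∧ ∃ T₀ : ℝ, ∀ T : ℝ, T₀ ≤ T →
  ∀ s : ℂ, InR B T s → Real.exp (-C * T) ≤ ‖g s‖

/-- A3: asymptotics of each term, `n ≤ T^{C₂}`. -/
def TaskA3 : Prop := ∀ τ : ℝ, 0 < τ → ∀ B C₂ : ℝ, 0 < B → 0 < C₂ → ∃ T₀ : ℝ, ∀ T : ℝ, T₀ ≤ T →
  ∀ s : ℂ, |s.im - T| ≤ Real.sqrt T → |s.re| ≤ B * Real.log T →
  ∀ n : ℕ, ell n ≤ C₂ * Real.log T →
    ‖Tm τ n s - E τ s * cexp (-s * ell n - τ * (ell n) ^ 2 + 2 * τ * ell n * a s)‖ ≤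
      T ^ (-(1 / 3) : ℝ) * ‖E τ s‖ *
        Real.exp (-s.re * ell n - τ * (ell n) ^ 2 + 2 * τ * ell n * (a s).re)

/-- A4: the terms `n > T^{C₂}`. -/
def TaskA4 : Prop := ∀ τ : ℝ, 0 < τ → ∀ B : ℝ, 0 < B → ∃ C₂ : ℝ, 0 < C₂ ∧
  ∃ T₀ : ℝ, ∀ T : ℝ, T₀ ≤ T →
  ∀ s : ℂ, |s.im - T| ≤ Real.sqrt T → |s.re| ≤ B * Real.log T →
    ∑' n : ℕ, (if C₂ * Real.log T < ell n then ‖Tm τ n s‖ else 0) ≤ T⁻¹ * ‖E τ s‖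

/-- the approximation theorem (from A1, A3, A4) -/
def TaskApprox : Prop := ∀ τ : ℝ, 0 < τ → ∀ B : ℝ, 0 < B → ∃ T₀ : ℝ, ∀ T : ℝ, T₀ ≤ T →
  ∀ s : ℂ, |s.im - T| ≤ Real.sqrt T → |s.re| ≤ B * Real.log T →
    ‖X τ s - E τ s * W τ T s‖ ≤ T ^ (-(1 / 4) : ℝ) * ‖E τ s‖ * Wp τ T s.re

/-! ### moments -/

/-- coefficients, `cf τ μ n = n^{-1/2} exp(2τμ log n - τ log² n)` (`= 0` at `n = 0`) -/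
noncomputable def cf (τ μ : ℝ) (n : ℕ) : ℝ :=
  (n : ℝ) ^ (-(1 / 2) : ℝ) * Real.exp (2 * τ * μ * Real.log n - τ * (Real.log n) ^ 2)

noncomputable def PP (τ μ x : ℝ) : ℂ :=
  ∑' n : ℕ, (cf τ μ (n + 1) : ℂ) * cexp (-I * x * ell n)

/-- M1: the coefficients -/
def TaskM1 : Prop := ∀ τ : ℝ, 0 < τ → ∃ C c : ℝ, 0 < C ∧ 0 < c ∧ ∀ μ : ℝ, 1 ≤ μ →
  (∀ K : ℕ, Real.exp (3 * μ) ≤ K →
    c * Real.exp (2 * τ * μ ^ 2) ≤ ∑ n ∈ Finset.Icc 1 K, cf τ μ n ^ 2) ∧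
  (∀ b : ℕ, 1 ≤ b → ∀ K : ℕ,
    ∑ h ∈ Finset.Icc 1 K, cf τ μ (h * b) ^ 2 ≤ C * Real.exp (2 * τ * μ ^ 2) / b) ∧
  (Summable fun n : ℕ => cf τ μ (n + 1)) ∧
  (∀ K : ℕ, Real.exp (3 * μ) ≤ K →
    ∑' n : ℕ, (if K ≤ n then cf τ μ (n + 1) else 0) ≤ C * Real.exp (τ * μ ^ 2) * Real.exp (-μ))

/-- finite Dirichlet polynomial -/
noncomputable def DP (c : ℕ → ℝ) (K : ℕ) (x : ℝ) : ℂ :=
  ∑ n ∈ Finset.Icc 1 K, (c n : ℂ) * cexp (-I * x * Real.log n)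

/-- window average -/
noncomputable def Aw (c : ℕ → ℝ) (K : ℕ) (w x : ℝ) : ℝ :=
  w⁻¹ * ∫ u in (0 : ℝ)..w, ‖DP c K (x + u)‖ ^ 2

/-- M2: first moment of the window average -/
def TaskM2 : Prop := ∀ (c : ℕ → ℝ) (K : ℕ), 2 ≤ K → (∀ n, 0 ≤ c n) →
  ∀ w H x₀ : ℝ, 0 < w → 0 < H →
    ∑ n ∈ Finset.Icc 1 K, c n ^ 2 - 8 * (K : ℝ) ^ 4 / H * ∑ n ∈ Finset.Icc 1 K, c n ^ 2 ≤
      H⁻¹ * ∫ x in x₀..(x₀ + H), Aw c K w x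

/-- M3: second moment of the window average -/
def TaskM3 : Prop := ∃ C : ℝ, 0 < C ∧ ∀ (c : ℕ → ℝ) (K : ℕ), 2 ≤ K → (∀ n, 0 ≤ c n) →
  ∀ D : ℝ, 0 < D →
  (∀ b : ℕ, 1 ≤ b → ∑ h ∈ (Finset.Icc 1 K).filter (fun h => h * b ≤ K), c (h * b) ^ 2 ≤ D / b) →
  ∀ w H x₀ : ℝ, Real.log K ≤ w → (K : ℝ) ^ 20 ≤ H →
    H⁻¹ * ∫ x in x₀..(x₀ + H), (Aw c K w x) ^ 2 ≤ C * D ^ 2

/-- M4: the final statement on moments (from M1, M2, M3 and Paley-Zygmund) -/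
def TaskM4 : Prop := ∀ τ : ℝ, 0 < τ → ∃ δ κ B₀ μ₀ : ℝ, 0 < δ ∧ 0 < κ ∧ 0 < B₀ ∧
  ∀ μ : ℝ, μ₀ ≤ μ → ∀ w : ℝ, 4 * μ ≤ w → ∀ J : ℕ, Real.exp (B₀ * μ) ≤ J * w → ∀ x₀ : ℝ,
    ∃ G : Finset ℕ, G ⊆ Finset.range J ∧ δ * J ≤ (G.card : ℝ) ∧
      ∀ j ∈ G, ∃ y : ℝ, x₀ + j * w ≤ y ∧ y ≤ x₀ + (j + 2) * w ∧
        κ * Real.exp (τ * μ ^ 2) ≤ ‖PP τ μ y‖

/-! ### few zeros -/

/-- Z1: dividing out the zeros -/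
def TaskZ1 : Prop := ∀ (B R r : ℝ) (c : ℂ) (f : ℂ → ℂ), 0 < B → 0 < R → 0 < r → r < R →
  AnalyticOnNhd ℂ f (closedBall c R) → (∀ s ∈ closedBall c R, ‖f s‖ ≤ Real.exp B) →
  (∀ s ∈ closedBall c r, f s ≠ 0) → ∀ N : ℝ, 0 ≤ N → cnt f (closedBall c R) ≤ ENNReal.ofReal N →
  ∃ F : ℂ → ℂ, AnalyticOnNhd ℂ F (ball c R) ∧ (∀ s ∈ ball c R, F s ≠ 0) ∧
    (∀ s ∈ ball c R, ‖F s‖ ≤ Real.exp B) ∧ (∀ s ∈ ball c R, ‖f s‖ ≤ ‖F s‖) ∧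
    (∀ s ∈ closedBall c (r / 2), ‖F s‖ ≤ ‖f s‖ * (4 * R / r) ^ N)

/-- Z2: zero-free functions -/
def TaskZ2 : Prop := ∀ κ κ' β : ℝ, 0 < κ → κ < 1 → 0 < κ' → κ' < 1 → 0 < β → ∃ δ : ℝ, 0 < δ ∧
  ∀ (B R : ℝ) (c : ℂ) (F : ℂ → ℂ), 0 < B → 0 < R → AnalyticOnNhd ℂ F (ball c R) →
  (∀ s ∈ ball c R, F s ≠ 0) → (∀ s ∈ ball c R, ‖F s‖ ≤ Real.exp B) →
  (∀ s ∈ closedBall c (κ' * R), Real.exp (-(δ * B)) ≤ ‖F s‖ ∧ ‖F s‖ ≤ Real.exp (δ * B)) →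
  ∀ s ∈ closedBall c (κ * R), ‖F s‖ < Real.exp (β * B)

/-- Z3: few zeros lemma (from Z1, Z2) -/
def TaskZ3 : Prop := ∀ κ κ' β : ℝ, 0 < κ → κ < 1 → 0 < κ' → κ' < 1 → 0 < β →
  ∃ ε B₀ : ℝ, 0 < ε ∧ 0 < B₀ ∧
  ∀ (B R : ℝ) (c : ℂ) (f : ℂ → ℂ), B₀ ≤ B → 0 < R → AnalyticOnNhd ℂ f (closedBall c R) →
  (∀ s ∈ closedBall c R, ‖f s‖ ≤ Real.exp B) →
  (∀ s ∈ closedBall c (κ' * R), ‖f s - 1‖ ≤ 1 / 2) →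
  (∃ s ∈ closedBall c (κ * R), Real.exp (β * B) ≤ ‖f s‖) →
  ENNReal.ofReal (ε * B) ≤ cnt f (closedBall c R)

/-! ### zeros of `X` -/

/-- N1: `X` is entire, `E` is analytic and non-zero in the upper half plane, and the counts agree -/
def TaskN1 : Prop := ∀ τ : ℝ, 0 < τ → Differentiable ℂ (X τ) ∧
  (∀ s : ℂ, 0 < s.im → AnalyticAt ℂ (E τ) s ∧ E τ s ≠ 0) ∧
  (∀ S : Set ℂ, (∀ s ∈ S, 0 < s.im) → cnt (fun s => X τ s / E τ s) S = cnt (X τ) S) ∧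
  (∀ S : Set ℂ, cnt (Xi (-τ)) S = cnt (X τ) ((fun z : ℂ => 1 / 2 + I * z) '' S))

/-- N2: Jensen upper bound -/
def TaskN2 : Prop := ∀ τ : ℝ, 0 < τ → (∃ z : ℂ, Xi (-τ) z ≠ 0) →
  ∃ C T₀ : ℝ, 0 < C ∧ ∀ T : ℝ, T₀ ≤ T →
  cnt (Xi (-τ)) (closedBall 0 T) ≤ ENNReal.ofReal (C * T * Real.log T)

/-- N3: local lower bound for the number of non-real zeros (assembly) -/
def TaskN3 : Prop := ∀ τ : ℝ, 0 < τ → ∃ c T₀ : ℝ, 0 < c ∧ ∀ T : ℝ, T₀ ≤ T →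
  ENNReal.ofReal (c * Real.sqrt T * Real.log T) ≤
    cnt (X τ) {s : ℂ | 1 / 2 < s.re ∧ T ≤ s.im ∧ s.im < T + Real.sqrt T}

/-- N4: global lower bound -/
def TaskN4 : Prop := ∀ τ : ℝ, 0 < τ → ∃ c T₀ : ℝ, 0 < c ∧ ∀ T : ℝ, T₀ ≤ T →
  ENNReal.ofReal (c * T * Real.log T) ≤
    cnt (X τ) {s : ℂ | 1 / 2 < s.re ∧ T ≤ s.im ∧ s.im ≤ 2 * T}

/-- N5: in `|Re z| ≤ T` there are only finitely many zeros -/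
def TaskN5 : Prop := ∀ τ : ℝ, 0 < τ → ∀ T : ℝ, cnt (Xi (-τ)) {z : ℂ | |z.re| ≤ T} ≠ ⊤

end Pool.Agent.H902R3.XI
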