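import Pool.Agent.H902R3.XI.N3

open Complex MeasureTheory Filter Topology Set Metric
open scoped Real ENNReal

namespace Pool.Agent.H902R3.XI

lemma X_eq_Xi (τ : ℝ) (z : ℂ) : X τ (1 / 2 + I * z) = Xi (-τ) z := by
  unfold X Xi
  refine integral_congr_ae (Eventually.of_forall fun t => ?_)
  simp only [add_sub_cancel_left]

lemma image_eq (T₁ T₂ : ℝ) :
    (fun z : ℂ => 1 / 2 + I * z) '' {z : ℂ | z.im < 0 ∧ T₁ ≤ z.re ∧ z.re ≤ T₂} =
      {s : ℂ | 1 / 2 < s.re ∧ T₁ ≤ s.im ∧ s.im ≤ T₂} := by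
  ext s
  simp only [mem_image, mem_setOf_eq]
  constructor
  · rintro ⟨z, ⟨h1, h2, h3⟩, rfl⟩
    simp only [add_re, mul_re, I_re, I_im, add_im, mul_im, zero_mul, one_mul, zero_sub, zero_add]
    norm_num
    exact ⟨h1, h2, h3⟩
  · rintro ⟨h1, h2, h3⟩
    refine ⟨⟨s.im, 1 / 2 - s.re⟩, ⟨?_, h2, h3⟩, ?_⟩
    · simp only
      linarith
    · apply Complex.ext
      · simp
      · simp

lemma exists_ne (hA : TaskApprox) (hN : TaskN1) (τ : ℝ) (hτ : 0 < τ) :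
    ∃ z : ℂ, Xi (-τ) z ≠ 0 := by
  have hF := F_approx hA hN τ hτ (τ + 8) (by positivity)
  have e1 := tendsto_LL.eventually_ge_atTop 1
  have e2 := eventually_ge_atTop (16 ^ 4 : ℝ)
  obtain ⟨T, hT, h1, h2⟩ := (hF.and (e1.and e2)).exists
  have hT0 : 0 < T := by linarith
  have hT1 : 1 ≤ T := by linarith
  have hLT := LL_le T hT1
  have h3 := hT ⟨2 * τ * LL T + 8, T⟩ (by simp) (by
    simp only
    rw [abs_of_nonneg (by positivity)]
    nlinarith) hT0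
  obtain ⟨h5, h6⟩ := W_sub_one_le τ T hτ ⟨2 * τ * LL T + 8, T⟩ (by simp)
  have h7 : T ^ (-(1 / 4) : ℝ) ≤ 1 / 16 := by
    rw [Real.rpow_neg hT0.le, show (1 / 16 : ℝ) = (16 : ℝ)⁻¹ by norm_num]
    refine inv_anti₀ (by norm_num) ?_
    have h16 : ((16 : ℝ) ^ 4) ^ (1 / 4 : ℝ) = 16 := by
      rw [show ((16 : ℝ) ^ 4) = (16 : ℝ) ^ (4 : ℝ) by norm_num, ← Real.rpow_mul (by norm_num)]
      norm_num
    calc (16 : ℝ) = ((16 : ℝ) ^ 4) ^ (1 / 4 : ℝ) := h16.symm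
      _ ≤ T ^ (1 / 4 : ℝ) := Real.rpow_le_rpow (by norm_num) h2 (by norm_num)
  set s : ℂ := ⟨2 * τ * LL T + 8, T⟩ with hs
  have h8 : T ^ (-(1 / 4) : ℝ) * Wp τ T s.re ≤ 1 / 16 * 2 := by
    have := Wp_nonneg τ T s.re
    gcongr
  have hX : X τ s ≠ 0 := by
    intro h0
    rw [h0, zero_div, zero_sub, norm_neg] at h3
    have h9 : ‖(1 : ℂ)‖ ≤ ‖W τ T s‖ + ‖W τ T s - 1‖ := by
      have := norm_sub_le (W τ T s) (W τ T s - 1)
      simpa using this
    rw [norm_one] at h9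
    linarith
  refine ⟨(s - 1 / 2) / I, ?_⟩
  rw [← X_eq_Xi]
  have : 1 / 2 + I * ((s - 1 / 2) / I) = s := by
    field_simp
    ring
  rw [this]
  exact hX

lemma cnt_add_le (f : ℂ → ℂ) (A B S : Set ℂ) (hA : A ⊆ S) (hB : B ⊆ S) (hd : Disjoint A B) :
    cnt f A + cnt f B ≤ cnt f S := by
  rw [cnt_eq, cnt_eq, cnt_eq, ← ENNReal.tsum_add]
  refine ENNReal.tsum_le_tsum fun z => ?_
  by_cases h1 : z ∈ A
  · have h2 : z ∉ B := fun h => (Set.disjoint_left.mp hd h1 h)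
    rw [Set.indicator_of_mem h1, Set.indicator_of_notMem h2, Set.indicator_of_mem (hA h1), add_zero]
  · rw [Set.indicator_of_notMem h1, zero_add]
    exact Set.indicator_le_indicator_of_subset hB (fun _ => bot_le) z

/-- the main quantitative theorem -/
theorem main (hA : TaskApprox) (hM : TaskM4) (hZ : TaskZ3) (hN : TaskN1) (hN2 : TaskN2)
    (hN4 : TaskN3 → TaskN4) (lam : ℝ) (hlam : lam < 0) :
    ∃ c C T₀ : ℝ, 0 < c ∧ 0 < C ∧ ∀ T : ℝ, T₀ ≤ T →
      cnt (Xi lam) {z : ℂ | z.im = 0 ∧ ‖z‖ ≤ T} ≤ ENNReal.ofReal (C * (T * Real.log T)) ∧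
      ENNReal.ofReal (c * (T * Real.log T)) ≤ cnt (Xi lam) {z : ℂ | z.im ≠ 0 ∧ |z.re| ≤ T} := by
  have hτ : 0 < -lam := by linarith
  have hl : lam = -(-lam) := by ring
  obtain ⟨c, T₁, hc, h1⟩ := hN4 (taskN3 hA hM hZ hN) (-lam) hτ
  obtain ⟨C, T₂, hC, h2⟩ := hN2 (-lam) hτ (exists_ne hA hN (-lam) hτ)
  refine ⟨c / 4, C, max (max (2 * T₁) T₂) 4, by positivity, hC, fun T hT => ?_⟩
  have hT1 : 2 * T₁ ≤ T := (le_max_left _ _).trans ((le_max_left _ _).trans hT)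
  have hT2 : T₂ ≤ T := (le_max_right _ _).trans ((le_max_left _ _).trans hT)
  have hT3 : 4 ≤ T := (le_max_right _ _).trans hT
  constructor
  · have h3 := h2 T hT2
    rw [← hl] at h3
    refine (cnt_mono _ ?_).trans (h3.trans (le_of_eq ?_))
    · intro z hz
      simp only [mem_closedBall, dist_zero_right]
      exact hz.2
    · rw [mul_assoc]
  · have h3 := h1 (T / 2) (by linarith)
    have h4 := (hN (-lam) hτ).2.2.2 {z : ℂ | z.im < 0 ∧ T / 2 ≤ z.re ∧ z.re ≤ 2 * (T / 2)}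
    rw [image_eq, ← hl] at h4
    rw [← h4] at h3
    refine le_trans ?_ (h3.trans (cnt_mono _ ?_))
    · refine ENNReal.ofReal_le_ofReal ?_
      have h5 : Real.log T / 2 ≤ Real.log (T / 2) := by
        rw [Real.log_div (by linarith) (by norm_num)]
        have h6 : 2 * Real.log 2 ≤ Real.log T := by
          rw [show 2 * Real.log 2 = Real.log 4 by
            rw [show (4 : ℝ) = 2 ^ 2 by norm_num, Real.log_pow]; norm_num]
          exact Real.log_le_log (by norm_num) hT3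
        linarith
      have h7 : 0 ≤ c * (T / 2) := by positivity
      nlinarith [mul_le_mul_of_nonneg_left h5 h7]
    · intro z hz
      obtain ⟨h5, h6, h7⟩ := hz
      refine ⟨h5.ne, ?_⟩
      rw [abs_le]
      constructor <;> linarith

theorem ratio (lam : ℝ) (h : ∃ c C T₀ : ℝ, 0 < c ∧ 0 < C ∧ ∀ T : ℝ, T₀ ≤ T →
      cnt (Xi lam) {z : ℂ | z.im = 0 ∧ ‖z‖ ≤ T} ≤ ENNReal.ofReal (C * (T * Real.log T)) ∧
      ENNReal.ofReal (c * (T * Real.log T)) ≤ cnt (Xi lam) {z : ℂ | z.im ≠ 0 ∧ |z.re| ≤ T}) :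
    ∃ q : ℝ≥0∞, q < 1 ∧ ∀ᶠ T : ℝ in atTop,
      cnt (Xi lam) {z : ℂ | z.im = 0 ∧ ‖z‖ ≤ T} / cnt (Xi lam) {z : ℂ | |z.re| ≤ T} ≤ q := by
  obtain ⟨c, C, T₀, hc, hC, h⟩ := h
  refine ⟨ENNReal.ofReal (C / (C + c)), ?_, ?_⟩
  · rw [ENNReal.ofReal_lt_one, div_lt_one (by positivity)]
    linarith
  · filter_upwards [eventually_ge_atTop T₀, eventually_ge_atTop 1] with T h1 h2
    obtain ⟨h3, h4⟩ := h T h1
    refine ENNReal.div_le_of_le_mul ?_
    set r := cnt (Xi lam) {z : ℂ | z.im = 0 ∧ ‖z‖ ≤ T} with hr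
    have hrt : r ≠ ⊤ := ne_top_of_le_ne_top ENNReal.ofReal_ne_top h3
    have h5 : r + ENNReal.ofReal (c * (T * Real.log T)) ≤ cnt (Xi lam) {z : ℂ | |z.re| ≤ T} := by
      refine le_trans (add_le_add le_rfl h4) ?_
      refine cnt_add_le _ _ _ _ ?_ ?_ ?_
      · intro z hz
        exact (abs_re_le_norm z).trans hz.2
      · intro z hz
        exact hz.2
      · rw [Set.disjoint_left]
        intro z hz hz'
        exact hz'.1 hz.1
    refine le_trans ?_ (mul_le_mul_right h5 _)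
    have h6 : r = ENNReal.ofReal r.toReal := (ENNReal.ofReal_toReal hrt).symm
    have h0 : 0 ≤ T * Real.log T := by
      have := Real.log_nonneg h2
      positivity
    have h7 : r.toReal ≤ C * (T * Real.log T) := by
      have := ENNReal.toReal_mono ENNReal.ofReal_ne_top h3
      rwa [ENNReal.toReal_ofReal (by positivity)] at this
    rw [h6, ← ENNReal.ofReal_add ENNReal.toReal_nonneg (by positivity),
      ← ENNReal.ofReal_mul (by positivity)]
    refine ENNReal.ofReal_le_ofReal ?_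
    rw [div_mul_eq_mul_div, le_div_iff₀ (by positivity)]
    have h8 : 0 ≤ r.toReal := ENNReal.toReal_nonneg
    nlinarith

end Pool.Agent.H902R3.XI
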