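import Pool.Agent.H902R3.XI.Stmts
import Pool.Agent.Helper242.KK.Main

open Complex MeasureTheory Filter Topology Set Metric
open scoped Real ENNReal

namespace Pool.Agent.H902R3.XI

open Pool.Agent.Helper242 in
lemma Phi_eq_Ph (t : ℝ) : Phi t = KK.Ph t := by
  unfold Phi KK.Ph RK.Phi
  congr 1
  refine tsum_congr fun n => ?_
  rw [show 9 * (t / 2) = 9 * t / 2 by ring, show 5 * (t / 2) = 5 * t / 2 by ring,
    show 4 * (t / 2) = 2 * t by ring]
  have h : -π * ((n : ℝ) + 1) ^ 2 * Real.exp (2 * t) =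
      -(((n : ℝ) + 1) ^ 2 * π * Real.exp (2 * t)) := by ring
  rw [h]
  ring

open Pool.Agent.Helper242 in
lemma Xi_eq_XiM (τ : ℝ) : Xi (-τ) = KK.XiM τ := by
  funext z
  unfold Xi KK.XiM KK.FT KK.wk
  refine integral_congr_ae (Eventually.of_forall fun t => ?_)
  simp only [Phi_eq_Ph, neg_mul]

open Pool.Agent.Helper242 in
theorem taskN2 : TaskN2 := by
  intro τ hτ _
  obtain ⟨C, hC, hb⟩ := KK.XiM_upper hτ.le
  have h0 := KK.XiM_zero_ne hτ.le
  have hd := KK.differentiable_XiM hτ.le
  set F := KK.XiM τ with hF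
  set A : ℝ := |Real.log ‖F 0‖| with hA
  have hA0 : 0 ≤ A := abs_nonneg _
  refine ⟨(2 * (3 + 3 * C) + A) / Real.log 2, 4, by positivity, fun T hT => ?_⟩
  have hT0 : 0 < T := by linarith
  have hlogT : 1 ≤ Real.log T := by
    have h1 : Real.log 4 ≤ Real.log T := Real.log_le_log (by norm_num) hT
    have h2 : Real.log 4 = 2 * Real.log 2 := by
      rw [show (4 : ℝ) = 2 ^ 2 by norm_num, Real.log_pow]
      norm_num
    have := Real.log_two_gt_d9
    linarith
  set M : ℝ := Real.exp (T * Real.log (2 + 2 * T) + C * (1 + 2 * T)) with hM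
  have hM1 : 1 ≤ M := by
    rw [hM]
    apply Real.one_le_exp
    have : 0 ≤ Real.log (2 + 2 * T) := Real.log_nonneg (by linarith)
    positivity
  have key := KK.zc_ball_le hd (c := 0) (r := T) (R := 2 * T) (M := M) hT0 (by linarith) hM1 h0 ?_
  · rw [Xi_eq_XiM]
    change cnt (KK.XiM τ) (closedBall 0 T) ≤ _
    have h1 : cnt (KK.XiM τ) (closedBall 0 T) = KK.zc F (closedBall 0 T) := rfl
    rw [h1]
    refine key.trans (ENNReal.ofReal_le_ofReal ?_)
    have h2 : Real.log (2 * T / T) = Real.log 2 := by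
      congr 1
      field_simp
    have hl2 : 0 < Real.log 2 := Real.log_pos (by norm_num)
    have h0' : 0 < ‖F 0‖ := norm_pos_iff.mpr h0
    rw [h2, Real.log_div (by positivity) h0'.ne', hM, Real.log_exp, div_le_iff₀ hl2]
    have h3 : (2 * (3 + 3 * C) + A) / Real.log 2 * T * Real.log T * Real.log 2 =
        (2 * (3 + 3 * C) + A) * (T * Real.log T) := by
      field_simp
    rw [h3]
    have h4 : -Real.log ‖F 0‖ ≤ A := neg_le_abs _
    have h5 : Real.log (2 + 2 * T) ≤ 2 * Real.log T := by
      have : Real.log (2 + 2 * T) ≤ Real.log (T ^ 2) := by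
        apply Real.log_le_log (by positivity)
        nlinarith
      rw [Real.log_pow] at this
      push_cast at this
      exact this
    have h6 : T ≤ T * Real.log T := by nlinarith
    have h7 : 1 + 2 * T ≤ 3 * (T * Real.log T) := by nlinarith
    have h8 : T * Real.log (2 + 2 * T) ≤ 2 * (T * Real.log T) := by nlinarith
    have h9 : C * (1 + 2 * T) ≤ C * (3 * (T * Real.log T)) := by gcongr
    have h10 : A ≤ A * (T * Real.log T) := by nlinarith
    nlinarith
  · intro z hz
    refine (hb z).trans (Real.exp_le_exp.mpr ?_)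
    have h1 : ‖z‖ = 2 * T := by simpa using hz
    have h2 : |z.im| ≤ 2 * T := by
      rw [← h1]
      exact abs_im_le_norm z
    have h3 : 0 ≤ |z.im| := abs_nonneg _
    have h4 : Real.log (2 + |z.im|) ≤ Real.log (2 + 2 * T) := by
      apply Real.log_le_log (by positivity)
      linarith
    have h5 : 0 ≤ Real.log (2 + |z.im|) := Real.log_nonneg (by linarith)
    have h6 : |z.im| / 2 * Real.log (2 + |z.im|) ≤ T * Real.log (2 + 2 * T) := by
      gcongr
      linarith
    have h7 : C * (1 + |z.im|) ≤ C * (1 + 2 * T) := by gcongr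
    linarith

end Pool.Agent.H902R3.XI
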