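import Pool.Agent.H902R3.XI.N3b

open Complex MeasureTheory Filter Topology Set Metric
open scoped Real ENNReal

namespace Pool.Agent.H902R3.XI

lemma PP_eq_W (τ μ T y' : ℝ) :
    PP τ μ y' = W τ T ⟨2 * τ * (LL T - μ) + 1 / 2, y' + π * τ / 2⟩ := by
  unfold PP W
  refine tsum_congr fun n => ?_
  have h1 : ((cf τ μ (n + 1) : ℝ) : ℂ) =
      cexp (((-(1 / 2) * ell n + (2 * τ * μ * ell n - τ * (ell n) ^ 2) : ℝ) : ℂ)) := by
    rw [← Complex.ofReal_exp]
    congr 1
    unfold cf ell
    push_cast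
    rw [Real.rpow_def_of_pos (by positivity), ← Real.exp_add]
    congr 1
    ring
  rw [h1, ← Complex.exp_add]
  congr 1
  have h2 : (⟨2 * τ * (LL T - μ) + 1 / 2, y' + π * τ / 2⟩ : ℂ) =
      ((2 * τ * (LL T - μ) + 1 / 2 : ℝ) : ℂ) + ((y' + π * τ / 2 : ℝ) : ℂ) * I := by
    apply Complex.ext <;> simp
  rw [h2]
  push_cast
  ring

lemma card_near (J : ℕ) (y₀ w R x : ℝ) (hw : 0 < w) (hR : 0 ≤ R) (G : Finset ℕ) :
    ((G.filter (fun j : ℕ => |x - (y₀ + ((j : ℝ) + 1) * w)| ≤ R)).card : ℝ) ≤ 2 * R / w + 1 := by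
  classical
  set F := G.filter (fun j : ℕ => |x - (y₀ + ((j : ℝ) + 1) * w)| ≤ R) with hF
  rcases F.eq_empty_or_nonempty with h | h
  · rw [h]
    simp only [Finset.card_empty, Nat.cast_zero]
    positivity
  · set m := F.min' h with hm
    have hmF : m ∈ F := F.min'_mem h
    have hsub : F ⊆ Finset.Icc m (m + ⌊2 * R / w⌋₊) := by
      intro j hj
      rw [Finset.mem_Icc]
      refine ⟨F.min'_le j hj, ?_⟩
      have h1 := (Finset.mem_filter.mp hj).2
      have h2 := (Finset.mem_filter.mp hmF).2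
      rw [abs_le] at h1 h2
      have h3 : ((j : ℝ) - m) * w ≤ 2 * R := by nlinarith [h1.1, h1.2, h2.1, h2.2]
      have h4 : (j : ℝ) - m ≤ 2 * R / w := by rwa [le_div_iff₀ hw]
      have hmj : m ≤ j := F.min'_le j hj
      have h5 : ((j - m : ℕ) : ℝ) ≤ 2 * R / w := by
        rw [Nat.cast_sub hmj]
        exact h4
      have h6 := Nat.le_floor h5
      omega
    have h1 := Finset.card_le_card hsub
    rw [Nat.card_Icc] at h1
    have h2 : (F.card : ℝ) ≤ ((m + ⌊2 * R / w⌋₊ + 1 - m : ℕ) : ℝ) := by exact_mod_cast h1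
    have h3 : (m + ⌊2 * R / w⌋₊ + 1 - m : ℕ) = ⌊2 * R / w⌋₊ + 1 := by omega
    rw [h3] at h2
    push_cast at h2
    have h4 := Nat.floor_le (show 0 ≤ 2 * R / w by positivity)
    linarith

theorem taskN3 (hA : TaskApprox) (hM : TaskM4) (hZ : TaskZ3) (hN : TaskN1) : TaskN3 := by
  classical
  intro τ hτ
  obtain ⟨δ, κ₀, B₀, μ₀, hδ, hκ, hB₀, hM'⟩ := hM τ hτ
  obtain ⟨η, hη, hη1, hη2, hη3⟩ : ∃ η : ℝ, 0 < η ∧ η * (2 * τ + 4) ≤ τ ∧ η ≤ 1 / 8 ∧
      B₀ * η ≤ 1 / 2 := by
    refine ⟨min (τ / (2 * τ + 4)) (min (1 / 8) (1 / (2 * B₀))), ?_, ?_, ?_, ?_⟩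
    · refine lt_min (by positivity) (lt_min (by norm_num) (by positivity))
    · have h := min_le_left (τ / (2 * τ + 4)) (min (1 / 8) (1 / (2 * B₀)))
      calc _ ≤ τ / (2 * τ + 4) * (2 * τ + 4) := by gcongr
        _ = τ := by field_simp
    · exact (min_le_right _ _).trans (min_le_left _ _)
    · have h : min (τ / (2 * τ + 4)) (min (1 / 8) (1 / (2 * B₀))) ≤ 1 / (2 * B₀) :=
        (min_le_right _ _).trans (min_le_right _ _)
      calc _ ≤ B₀ * (1 / (2 * B₀)) := by gcongr
        _ = 1 / 2 := by field_simp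
  obtain ⟨c, hc, hD⟩ := disc_count hA hZ hN τ hτ η hη hη1 hη2 κ₀ hκ
  set C₃ : ℝ := 5 * τ / (4 * η) + 1 with hC₃
  have hC₃0 : 0 < C₃ := by positivity
  -- the constant
  have main : ∀ᶠ T : ℝ in atTop,
      ENNReal.ofReal (δ * c / (16 * η * C₃ * 4) * Real.sqrt T * Real.log T) ≤
        cnt (X τ) {s : ℂ | 1 / 2 < s.re ∧ T ≤ s.im ∧ s.im < T + Real.sqrt T} := by
    have e1 := tendsto_LL.eventually_ge_atTop 1
    have e2 : ∀ᶠ T : ℝ in atTop, μ₀ ≤ η * LL T :=
      (tendsto_LL.const_mul_atTop hη).eventually_ge_atTop μ₀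
    have e3 := LL_small (5 * τ + 20 * η) (1 / 8) (by norm_num)
    have e4 := LL_ge
    have e5 := eventually_ge_atTop (16 : ℝ)
    have e6 := tendsto_LL.eventually_ge_atTop (32 / τ)
    have e7 : ∀ᶠ T : ℝ in atTop, Real.exp (Real.log T / 4) ≤ Real.sqrt T / 4 := by
      have h := Real.tendsto_log_atTop.eventually_ge_atTop (4 * Real.log 4)
      filter_upwards [h, eventually_gt_atTop 0] with T h1 h2
      have h3 : Real.sqrt T = Real.exp (Real.log T / 2) := by
        rw [Real.sqrt_eq_rpow, Real.rpow_def_of_pos h2]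
        congr 1
        ring
      have h4 : Real.exp (Real.log T / 4) * 4 ≤ Real.exp (Real.log T / 2) := by
        nth_rewrite 2 [show (4 : ℝ) = Real.exp (Real.log 4) from
          (Real.exp_log (by norm_num)).symm]
        rw [← Real.exp_add]
        exact Real.exp_le_exp.mpr (by linarith)
      rw [h3]
      linarith
    filter_upwards [hD, e1, e2, e3, e4, e5, e6, e7] with T hD e1 e2 e3 e4 e5 e6 e7
    set L := LL T with hL
    have hL0 : 0 < L := by linarith
    have hT0 : 0 < T := by linarith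
    have hT1 : 1 ≤ T := by linarith
    have hLT := LL_le T hT1
    have hs0 : 0 < Real.sqrt T := Real.sqrt_pos.mpr hT0
    set w : ℝ := 4 * (η * L) with hw
    have hw0 : 0 < w := by positivity
    set J : ℕ := ⌊Real.sqrt T / (2 * w)⌋₊ with hJ
    have hJle : (J : ℝ) * w ≤ Real.sqrt T / 2 := by
      have h1 := Nat.floor_le (show 0 ≤ Real.sqrt T / (2 * w) by positivity)
      calc (J : ℝ) * w ≤ Real.sqrt T / (2 * w) * w := by gcongr
        _ = Real.sqrt T / 2 := by field_simp
    have hJge : Real.sqrt T / 4 ≤ (J : ℝ) * w := by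
      have h1 := Nat.lt_floor_add_one (Real.sqrt T / (2 * w))
      have h2 : Real.sqrt T / 2 ≤ ((J : ℝ) + 1) * w := by
        calc Real.sqrt T / 2 = Real.sqrt T / (2 * w) * w := by field_simp
          _ ≤ ((J : ℝ) + 1) * w := by gcongr
      have h3 : w ≤ Real.sqrt T / 8 := by
        have : 0 ≤ τ * L := by positivity
        nlinarith
      nlinarith
    have hJexp : Real.exp (B₀ * (η * L)) ≤ J * w := by
      refine le_trans ?_ hJge
      refine le_trans (Real.exp_le_exp.mpr ?_) e7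
      have h1 : B₀ * η * L ≤ 1 / 2 * L := by gcongr
      nlinarith
    set R : ℝ := 5 / 2 * τ * L with hR
    have hR0 : 0 < R := by positivity
    obtain ⟨G, hG, hGc, hGj⟩ := hM' (η * L) e2 w (by rw [hw]) J hJexp
      (T + R - π * τ / 2)
    set y₀ : ℝ := T + R with hy₀
    set S : ℕ → Set ℂ := fun j => closedBall ⟨3 * τ * L, y₀ + ((j : ℝ) + 1) * w⟩ R with hS
    set U : Set ℂ := {s : ℂ | 1 / 2 < s.re ∧ T ≤ s.im ∧ s.im < T + Real.sqrt T} with hU
    have h32 : 32 ≤ τ * L := by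
      rw [div_le_iff₀ hτ] at e6
      linarith
    -- geometry of a ball
    have hball : ∀ j : ℕ, ∀ s ∈ S j, |s.re - 3 * τ * L| ≤ R ∧
        |s.im - (y₀ + ((j : ℝ) + 1) * w)| ≤ R := by
      intro j s hs
      rw [hS] at hs
      simp only [mem_closedBall, dist_eq_norm] at hs
      constructor
      · have := abs_re_le_norm (s - ⟨3 * τ * L, y₀ + ((j : ℝ) + 1) * w⟩)
        simp only [sub_re] at this
        exact this.trans hs
      · have := abs_im_le_norm (s - ⟨3 * τ * L, y₀ + ((j : ℝ) + 1) * w⟩)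
        simp only [sub_im] at this
        exact this.trans hs
    have hjJ : ∀ j ∈ G, ((j : ℝ) + 1) * w ≤ Real.sqrt T / 2 := by
      intro j hj
      have h1 : j < J := Finset.mem_range.mp (hG hj)
      have h2 : (j : ℝ) + 1 ≤ J := by exact_mod_cast h1
      nlinarith
    have hR8 : R ≤ Real.sqrt T / 16 := by
      rw [hR]
      have : 0 ≤ η * L := by positivity
      nlinarith
    have hSU : ∀ j ∈ G, S j ⊆ U := by
      intro j hj s hs
      obtain ⟨h1, h2⟩ := hball j s hs
      have h3 := hjJ j hj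
      have hj0 : (0 : ℝ) ≤ j := Nat.cast_nonneg j
      rw [abs_le] at h1 h2
      refine ⟨?_, ?_, ?_⟩
      · rw [hR] at h1
        linarith [h1.1]
      · have : 0 ≤ ((j : ℝ) + 1) * w := by positivity
        linarith [h2.1]
      · linarith [h2.2]
    have hSc : ∀ j ∈ G, ENNReal.ofReal (c * L ^ 2) ≤ cnt (X τ) (S j) := by
      intro j hj
      obtain ⟨y, hy1, hy2, hy3⟩ := hGj j hj
      have h3 := hjJ j hj
      have hj0 : (0 : ℝ) ≤ j := Nat.cast_nonneg j
      have hp : 0 ≤ ((j : ℝ) + 1) * w := by positivity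
      refine hD (y₀ + ((j : ℝ) + 1) * w) ?_ (y + π * τ / 2) ?_ ?_
      · rw [abs_of_nonneg (by linarith)]
        linarith
      · rw [abs_le]
        constructor <;> nlinarith
      · rw [← PP_eq_W τ (η * L) T y]
        exact hy3
    have hov := cnt_overlap (X τ) G S U (ENNReal.ofReal C₃) hSU ?_
    · have h1 : (G.card : ℝ≥0∞) * ENNReal.ofReal (c * L ^ 2) ≤ ∑ j ∈ G, cnt (X τ) (S j) := by
        rw [← nsmul_eq_mul]
        exact Finset.card_nsmul_le_sum G _ _ hSc
      have h2 := h1.trans hov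
      have h3 : (G.card : ℝ≥0∞) * ENNReal.ofReal (c * L ^ 2) =
          ENNReal.ofReal ((G.card : ℝ) * (c * L ^ 2)) := by
        rw [ENNReal.ofReal_mul (Nat.cast_nonneg _), ENNReal.ofReal_natCast]
      rw [h3] at h2
      have h4 : ENNReal.ofReal ((G.card : ℝ) * (c * L ^ 2) / C₃) ≤ cnt (X τ) U := by
        rw [ENNReal.ofReal_div_of_pos hC₃0]
        refine ENNReal.div_le_of_le_mul ?_
        rw [mul_comm (cnt (X τ) U)]
        exact h2
      refine le_trans (ENNReal.ofReal_le_ofReal ?_) h4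
      rw [le_div_iff₀ hC₃0]
      have h5 : δ * c / (16 * η * C₃ * 4) * Real.sqrt T * Real.log T * C₃ =
          δ * (Real.sqrt T / (16 * η)) * c * (Real.log T / 4) := by
        field_simp
      rw [h5]
      have h6 : Real.sqrt T / (16 * η) ≤ J * L := by
        rw [div_le_iff₀ (by positivity)]
        rw [hw] at hJge
        linarith
      calc δ * (Real.sqrt T / (16 * η)) * c * (Real.log T / 4)
          ≤ δ * (J * L) * c * L := by
            have : 0 ≤ Real.log T := Real.log_nonneg hT1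
            gcongr
        _ = (δ * J) * (c * L ^ 2) := by ring
        _ ≤ (G.card : ℝ) * (c * L ^ 2) := by gcongr
    · intro z
      have h1 : (G.filter (fun j => z ∈ S j)) ⊆
          G.filter (fun j : ℕ => |z.im - (y₀ + ((j : ℝ) + 1) * w)| ≤ R) := by
        intro j hj
        rw [Finset.mem_filter] at hj ⊢
        exact ⟨hj.1, (hball j z hj.2).2⟩
      have h2 := card_near J y₀ w R z.im hw0 hR0.le G
      have h3 : ((G.filter (fun j => z ∈ S j)).card : ℝ) ≤ C₃ := by
        have h4 : ((G.filter (fun j => z ∈ S j)).card : ℝ) ≤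
            ((G.filter (fun j : ℕ => |z.im - (y₀ + ((j : ℝ) + 1) * w)| ≤ R)).card : ℝ) := by
          exact_mod_cast Finset.card_le_card h1
        refine h4.trans (h2.trans (le_of_eq ?_))
        rw [hC₃, hR, hw]
        field_simp
      rw [← ENNReal.ofReal_natCast]
      exact ENNReal.ofReal_le_ofReal h3
  obtain ⟨T₀, hT₀⟩ := eventually_atTop.mp main
  exact ⟨δ * c / (16 * η * C₃ * 4), T₀, by positivity, hT₀⟩

end Pool.Agent.H902R3.XI
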