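import Pool.Agent.H902R3.XI.Stmts

open Complex MeasureTheory Filter Topology Set Metric
open scoped Real ENNReal

namespace Pool.Agent.H902R3.XI

/-! ### counting -/

lemma cnt_eq (f : ℂ → ℂ) (S : Set ℂ) :
    cnt f S = ∑' z : ℂ, S.indicator (fun z => ((analyticOrderAt f z : ℕ∞) : ℝ≥0∞)) z := by
  unfold cnt
  exact tsum_subtype S (fun z => ((analyticOrderAt f z : ℕ∞) : ℝ≥0∞))

lemma cnt_mono (f : ℂ → ℂ) {S T : Set ℂ} (h : S ⊆ T) : cnt f S ≤ cnt f T := by
  rw [cnt_eq, cnt_eq]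
  refine ENNReal.tsum_le_tsum fun z => ?_
  exact Set.indicator_le_indicator_of_subset h (fun _ => bot_le) z

open Classical in
lemma cnt_overlap (f : ℂ → ℂ) (G : Finset ℕ) (S : ℕ → Set ℂ) (U : Set ℂ) (C : ℝ≥0∞)
    (hS : ∀ j ∈ G, S j ⊆ U)
    (hC : ∀ z : ℂ, ((G.filter (fun j => z ∈ S j)).card : ℝ≥0∞) ≤ C) :
    ∑ j ∈ G, cnt f (S j) ≤ C * cnt f U := by
  classical
  simp only [cnt_eq]
  rw [← Summable.tsum_finsetSum (fun i _ => ENNReal.summable), ← ENNReal.tsum_mul_left]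
  refine ENNReal.tsum_le_tsum fun z => ?_
  by_cases hz : z ∈ U
  · rw [Set.indicator_of_mem hz]
    have h1 : ∑ j ∈ G, (S j).indicator (fun z => ((analyticOrderAt f z : ℕ∞) : ℝ≥0∞)) z =
        ∑ j ∈ G.filter (fun j => z ∈ S j), ((analyticOrderAt f z : ℕ∞) : ℝ≥0∞) := by
      rw [Finset.sum_filter]
      refine Finset.sum_congr rfl fun j _ => ?_
      simp only [Set.indicator_apply]
    rw [h1, Finset.sum_const, nsmul_eq_mul]
    gcongr
    exact hC z
  · have h1 : ∑ j ∈ G, (S j).indicator (fun z => ((analyticOrderAt f z : ℕ∞) : ℝ≥0∞)) z = 0 := by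
      refine Finset.sum_eq_zero fun j hj => ?_
      rw [Set.indicator_of_notMem]
      exact fun h => hz (hS j hj h)
    rw [h1]
    exact bot_le

/-! ### the series -/

lemma ell_nonneg (n : ℕ) : 0 ≤ ell n := by
  unfold ell
  apply Real.log_nonneg
  have : (0 : ℝ) ≤ n := Nat.cast_nonneg n
  linarith

lemma exp_ell (n : ℕ) : Real.exp (ell n) = (n : ℝ) + 1 := by
  unfold ell
  rw [Real.exp_log (by positivity)]

lemma exp_neg_two_ell (n : ℕ) : Real.exp (-2 * ell n) = 1 / ((n : ℝ) + 1) ^ 2 := by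
  have : -2 * ell n = -(ell n + ell n) := by ring
  rw [this, Real.exp_neg, Real.exp_add, exp_ell]
  rw [one_div]
  ring_nf

lemma hasSum_ell : HasSum (fun n : ℕ => Real.exp (-2 * ell n)) (π ^ 2 / 6) := by
  have h := hasSum_zeta_two
  have h2 : HasSum (fun n : ℕ => 1 / ((n + 1 : ℕ) : ℝ) ^ 2) (π ^ 2 / 6) := by
    have := (hasSum_nat_add_iff' (f := fun n : ℕ => 1 / (n : ℝ) ^ 2) 1).mpr h
    simpa using this
  refine h2.congr_fun ?_ |> fun h => h
  intro n
  rw [exp_neg_two_ell]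
  push_cast
  rfl

lemma pi_sq_lt : π ^ 2 / 6 < 2 := by
  have := Real.pi_lt_d2
  nlinarith [Real.pi_pos]

lemma gauss_term (τ μ x : ℝ) (hτ : 0 < τ) :
    -τ * (x - μ) ^ 2 ≤ 1 / τ + 2 * μ - 2 * x := by
  have h : 0 ≤ (τ * (x - μ) - 1) ^ 2 / τ := by positivity
  have h2 : (τ * (x - μ) - 1) ^ 2 / τ = τ * (x - μ) ^ 2 - 2 * (x - μ) + 1 / τ := by
    field_simp
    ring
  linarith

lemma summable_gauss (τ μ : ℝ) (hτ : 0 < τ) :
    Summable (fun n : ℕ => Real.exp (-τ * (ell n - μ) ^ 2)) := by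
  refine Summable.of_nonneg_of_le (fun n => (Real.exp_pos _).le) (fun n => ?_)
    (hasSum_ell.summable.mul_left (Real.exp (1 / τ + 2 * μ)))
  rw [← Real.exp_add]
  refine Real.exp_le_exp.mpr ?_
  have := gauss_term τ μ (ell n) hτ
  linarith

lemma tsum_gauss_le (τ μ : ℝ) (hτ : 0 < τ) :
    ∑' n : ℕ, Real.exp (-τ * (ell n - μ) ^ 2) ≤ 2 * Real.exp (1 / τ + 2 * μ) := by
  have h1 : ∑' n : ℕ, Real.exp (-τ * (ell n - μ) ^ 2) ≤
      ∑' n : ℕ, Real.exp (1 / τ + 2 * μ) * Real.exp (-2 * ell n) := by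
    refine Summable.tsum_le_tsum (fun n => ?_) (summable_gauss τ μ hτ)
      (hasSum_ell.summable.mul_left _)
    rw [← Real.exp_add]
    refine Real.exp_le_exp.mpr ?_
    have := gauss_term τ μ (ell n) hτ
    linarith
  rw [tsum_mul_left, hasSum_ell.tsum_eq] at h1
  have := pi_sq_lt
  nlinarith [Real.exp_pos (1 / τ + 2 * μ)]

lemma wp_term (τ T σ : ℝ) (hτ : 0 < τ) (x : ℝ) :
    -σ * x - τ * x ^ 2 + 2 * τ * x * LL T =
      τ * (LL T - σ / (2 * τ)) ^ 2 + -τ * (x - (LL T - σ / (2 * τ))) ^ 2 := by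
  field_simp
  ring

lemma summable_wp (τ T σ : ℝ) (hτ : 0 < τ) :
    Summable (fun n : ℕ => Real.exp (-σ * ell n - τ * (ell n) ^ 2 + 2 * τ * ell n * LL T)) := by
  have h := (summable_gauss τ (LL T - σ / (2 * τ)) hτ).mul_left
    (Real.exp (τ * (LL T - σ / (2 * τ)) ^ 2))
  refine h.congr fun n => ?_
  rw [← Real.exp_add, wp_term τ T σ hτ]

lemma norm_w_term (τ T : ℝ) (s : ℂ) (n : ℕ) :
    ‖cexp (-s * ell n - τ * (ell n) ^ 2 + 2 * τ * ell n * (LL T + π / 4 * I))‖ =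
      Real.exp (-s.re * ell n - τ * (ell n) ^ 2 + 2 * τ * ell n * LL T) := by
  rw [Complex.norm_exp]
  congr 1
  have : (-s * ell n - τ * (ell n) ^ 2 + 2 * τ * ell n * (LL T + π / 4 * I) : ℂ) =
      -(s * ell n) + ((-τ * (ell n) ^ 2 + 2 * τ * ell n * LL T : ℝ) : ℂ) +
        ((2 * τ * ell n * (π / 4) : ℝ) : ℂ) * I := by
    push_cast
    ring
  rw [this]
  simp only [add_re, neg_re, mul_re, ofReal_re, ofReal_im, I_re, I_im]
  ring

lemma norm_W_le (τ T : ℝ) (hτ : 0 < τ) (s : ℂ) : ‖W τ T s‖ ≤ Wp τ T s.re := by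
  unfold W Wp
  refine (norm_tsum_le_tsum_norm ?_).trans (le_of_eq ?_)
  · exact (summable_wp τ T s.re hτ).congr fun n => (norm_w_term τ T s n).symm
  · exact tsum_congr fun n => norm_w_term τ T s n

lemma Wp_nonneg (τ T σ : ℝ) : 0 ≤ Wp τ T σ := tsum_nonneg fun n => (Real.exp_pos _).le

/-- general bound for `Wp` -/
lemma Wp_le (τ T σ μ : ℝ) (hτ : 0 < τ) (hσ : 2 * τ * (LL T - μ) ≤ σ) :
    Wp τ T σ ≤ 2 * Real.exp (τ * μ ^ 2 + 1 / τ + 2 * μ) := by
  unfold Wp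
  have h1 : ∑' n : ℕ, Real.exp (-σ * ell n - τ * (ell n) ^ 2 + 2 * τ * ell n * LL T) ≤
      ∑' n : ℕ, Real.exp (τ * μ ^ 2) * Real.exp (-τ * (ell n - μ) ^ 2) := by
    refine Summable.tsum_le_tsum (fun n => ?_) (summable_wp τ T σ hτ)
      ((summable_gauss τ μ hτ).mul_left _)
    rw [← Real.exp_add]
    refine Real.exp_le_exp.mpr ?_
    nlinarith [mul_le_mul_of_nonneg_right hσ (ell_nonneg n)]
  rw [tsum_mul_left] at h1
  refine h1.trans ?_
  have h2 := tsum_gauss_le τ μ hτ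
  calc Real.exp (τ * μ ^ 2) * ∑' n : ℕ, Real.exp (-τ * (ell n - μ) ^ 2)
      ≤ Real.exp (τ * μ ^ 2) * (2 * Real.exp (1 / τ + 2 * μ)) := by gcongr
    _ = 2 * Real.exp (τ * μ ^ 2 + 1 / τ + 2 * μ) := by
        have : Real.exp (τ * μ ^ 2 + 1 / τ + 2 * μ) =
            Real.exp (τ * μ ^ 2) * Real.exp (1 / τ + 2 * μ) := by
          rw [← Real.exp_add, add_assoc]
        rw [this]
        ring

lemma ell_zero : ell 0 = 0 := by simp [ell]

lemma log_two_le_ell (n : ℕ) : Real.log 2 ≤ ell (n + 1) := by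
  unfold ell
  apply Real.log_le_log (by norm_num)
  push_cast
  have : (0 : ℝ) ≤ n := Nat.cast_nonneg n
  linarith

/-- far to the right, `W` is close to `1` -/
lemma W_sub_one_le (τ T : ℝ) (hτ : 0 < τ) (s : ℂ) (hs : 2 * τ * LL T + 8 ≤ s.re) :
    ‖W τ T s - 1‖ ≤ 1 / 8 ∧ Wp τ T s.re ≤ 2 := by
  have hterm : ∀ n : ℕ, Real.exp (-s.re * ell (n + 1) - τ * (ell (n + 1)) ^ 2 +
      2 * τ * ell (n + 1) * LL T) ≤ 1 / 64 * (Real.exp (-2 * ell (n + 1))) * 4 := by
    intro n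
    have hl := ell_nonneg (n + 1)
    have hl2 := log_two_le_ell n
    have h1 : -s.re * ell (n + 1) - τ * (ell (n + 1)) ^ 2 + 2 * τ * ell (n + 1) * LL T ≤
        -6 * Real.log 2 + -2 * ell (n + 1) + 0 := by
      have := mul_le_mul_of_nonneg_right hs hl
      nlinarith [mul_nonneg hτ.le (sq_nonneg (ell (n + 1)))]
    refine (Real.exp_le_exp.mpr h1).trans ?_
    rw [add_zero, Real.exp_add]
    have h6 : Real.exp (-6 * Real.log 2) = 1 / 64 := by
      rw [show -6 * Real.log 2 = -(((6 : ℕ) : ℝ) * Real.log 2) by push_cast; ring, Real.exp_neg,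
        Real.exp_nat_mul, Real.exp_log (by norm_num)]
      norm_num
    rw [h6]
    nlinarith [Real.exp_pos (-2 * ell (n + 1))]
  have hS := hasSum_ell.summable
  have hS1 : Summable (fun n : ℕ => Real.exp (-2 * ell (n + 1))) := (summable_nat_add_iff 1).mpr hS
  have hsum1 : ∑' n : ℕ, Real.exp (-2 * ell (n + 1)) ≤ 1 := by
    have h := hS.tsum_eq_zero_add
    rw [hasSum_ell.tsum_eq, ell_zero] at h
    simp only [mul_zero, Real.exp_zero] at h
    have := pi_sq_lt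
    linarith
  have hwp := summable_wp τ T s.re hτ
  have hwp1 : Summable (fun n : ℕ => Real.exp (-s.re * ell (n + 1) - τ * (ell (n + 1)) ^ 2 +
      2 * τ * ell (n + 1) * LL T)) := (summable_nat_add_iff 1).mpr hwp
  have htail : ∑' n : ℕ, Real.exp (-s.re * ell (n + 1) - τ * (ell (n + 1)) ^ 2 +
      2 * τ * ell (n + 1) * LL T) ≤ 1 / 16 := by
    refine (Summable.tsum_le_tsum hterm hwp1 ((hS1.mul_left _).mul_right _)).trans ?_
    rw [tsum_mul_right, tsum_mul_left]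
    linarith
  constructor
  · have hsw : Summable (fun n : ℕ => cexp (-s * ell n - τ * (ell n) ^ 2 +
        2 * τ * ell n * (LL T + π / 4 * I))) :=
      Summable.of_norm (hwp.congr fun n => (norm_w_term τ T s n).symm)
    have h0 : W τ T s - 1 = ∑' n : ℕ, cexp (-s * ell (n + 1) - τ * (ell (n + 1)) ^ 2 +
        2 * τ * ell (n + 1) * (LL T + π / 4 * I)) := by
      unfold W
      rw [hsw.tsum_eq_zero_add, ell_zero]
      simp
    rw [h0]
    refine (norm_tsum_le_tsum_norm ?_).trans ?_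
    · exact hwp1.congr fun n => (norm_w_term τ T s (n + 1)).symm
    · rw [tsum_congr fun n => norm_w_term τ T s (n + 1)]
      linarith
  · unfold Wp
    rw [hwp.tsum_eq_zero_add, ell_zero]
    simp only [mul_zero, ne_eq, OfNat.ofNat_ne_zero, not_false_eq_true, zero_pow, sub_self,
      zero_mul, add_zero, Real.exp_zero]
    linarith

end Pool.Agent.H902R3.XI
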