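import Pool.Agent.H902R3.XI.N3a

open Complex MeasureTheory Filter Topology Set Metric
open scoped Real ENNReal

namespace Pool.Agent.H902R3.XI

lemma tendsto_LL : Tendsto LL atTop atTop := by
  unfold LL
  refine Tendsto.atTop_div_const (by norm_num) ?_
  refine Real.tendsto_log_atTop.comp ?_
  exact tendsto_id.atTop_div_const (by positivity)

lemma LL_le (T : ℝ) (hT : 1 ≤ T) : LL T ≤ Real.log T / 2 := by
  unfold LL
  have h : Real.log (T / (2 * π)) ≤ Real.log T := by
    apply Real.log_le_log (by positivity)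
    rw [div_le_iff₀ (by positivity)]
    nlinarith [Real.pi_gt_three]
  linarith

lemma LL_ge : ∀ᶠ T : ℝ in atTop, Real.log T / 4 ≤ LL T := by
  have h := Real.tendsto_log_atTop.eventually_ge_atTop (2 * Real.log (2 * π))
  filter_upwards [h, eventually_gt_atTop 0] with T h1 h2
  unfold LL
  rw [Real.log_div (by positivity) (by positivity)]
  linarith

/-- `C · LL T + D ≤ √T` eventually -/
lemma LL_small (C : ℝ) (ε : ℝ) (hε : 0 < ε) : ∀ᶠ T : ℝ in atTop, C * LL T ≤ ε * Real.sqrt T := by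
  have h1 : ∀ᶠ T : ℝ in atTop, |Real.log T| ≤ ε / (|C| + 1) * |T ^ (1 / 2 : ℝ)| := by
    have := (isLittleO_log_rpow_atTop (show (0 : ℝ) < 1 / 2 by norm_num)).bound
      (show 0 < ε / (|C| + 1) by positivity)
    simpa using this
  filter_upwards [h1, eventually_ge_atTop 1, tendsto_LL.eventually_ge_atTop 0] with T h1 h2 h3
  have h4 := LL_le T h2
  have h5 : 0 ≤ Real.log T := Real.log_nonneg h2
  rw [abs_of_nonneg h5, ← Real.sqrt_eq_rpow, abs_of_nonneg (Real.sqrt_nonneg T)] at h1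
  have hC : C ≤ |C| + 1 := (le_abs_self C).trans (by linarith)
  have hC0 : 0 < |C| + 1 := by positivity
  calc C * LL T ≤ (|C| + 1) * LL T := by gcongr
    _ ≤ (|C| + 1) * (ε / (|C| + 1) * Real.sqrt T) := by
        gcongr
        linarith
    _ = ε * Real.sqrt T := by field_simp

lemma F_approx (hA : TaskApprox) (hN : TaskN1) (τ : ℝ) (hτ : 0 < τ) (B : ℝ) (hB : 0 < B) :
    ∀ᶠ T : ℝ in atTop, ∀ s : ℂ, |s.im - T| ≤ Real.sqrt T → |s.re| ≤ B * Real.log T → 0 < s.im →
      ‖X τ s / E τ s - W τ T s‖ ≤ T ^ (-(1 / 4) : ℝ) * Wp τ T s.re := by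
  obtain ⟨T₀, h⟩ := hA τ hτ B hB
  filter_upwards [eventually_ge_atTop T₀] with T hT s h1 h2 h3
  have h4 := h T hT s h1 h2
  have hE := ((hN τ hτ).2.1 s h3).2
  have hE' : 0 < ‖E τ s‖ := norm_pos_iff.mpr hE
  have h5 : X τ s / E τ s - W τ T s = (X τ s - E τ s * W τ T s) / E τ s := by
    field_simp
  rw [h5, norm_div, div_le_iff₀ hE']
  refine h4.trans (le_of_eq ?_)
  ring

theorem disc_count (hA : TaskApprox) (hZ : TaskZ3) (hN : TaskN1) (τ : ℝ) (hτ : 0 < τ) (η : ℝ)
    (hη : 0 < η) (hη1 : η * (2 * τ + 4) ≤ τ) (hη2 : η ≤ 1 / 8) (κ₀ : ℝ) (hκ : 0 < κ₀) :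
    ∃ c : ℝ, 0 < c ∧ ∀ᶠ T : ℝ in atTop, ∀ yc : ℝ,
      |yc - T| ≤ Real.sqrt T - 5 / 2 * τ * LL T → ∀ y : ℝ, |y - yc| ≤ 4 * η * LL T →
      κ₀ * Real.exp (τ * (η * LL T) ^ 2) ≤
        ‖W τ T ⟨2 * τ * (LL T - η * LL T) + 1 / 2, y⟩‖ →
      ENNReal.ofReal (c * (LL T) ^ 2) ≤
        cnt (X τ) (closedBall ⟨3 * τ * LL T, yc⟩ (5 / 2 * τ * LL T)) := by
  obtain ⟨ε, B₀, hε, hB₀, hZ'⟩ := hZ (4 / 5) (3 / 10) (τ * η ^ 2 / (2 * (τ + 3)))
    (by norm_num) (by norm_num) (by norm_num) (by norm_num) (by positivity)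
  refine ⟨ε * (τ + 3), by positivity, ?_⟩
  have hF := F_approx hA hN τ hτ (3 * τ) (by positivity)
  have hL := tendsto_LL
  have e1 := hL.eventually_ge_atTop 1
  have e2 := hL.eventually_ge_atTop B₀
  have e3 := hL.eventually_ge_atTop (Real.log 4 + 1 / τ)
  have e4 := hL.eventually_ge_atTop (32 / τ)
  have e5 := hL.eventually_ge_atTop (1 / τ)
  have e6 : ∀ᶠ T : ℝ in atTop, -Real.log (κ₀ / 2) ≤ τ * η ^ 2 / 2 * LL T := by
    have := (hL.const_mul_atTop (show 0 < τ * η ^ 2 / 2 by positivity))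
    exact this.eventually_ge_atTop _
  have e7 := Real.tendsto_log_atTop.eventually_ge_atTop
    (8 * (Real.log 2 + 1 / τ - Real.log (κ₀ / 2)))
  have e8 := Real.tendsto_log_atTop.eventually_ge_atTop (4 * Real.log 8)
  have e9 := eventually_ge_atTop (4 : ℝ)
  filter_upwards [hF, e1, e2, e3, e4, e5, e6, e7, e8, e9] with T hF e1 e2 e3 e4 e5 e6 e7 e8 e9
  intro yc hyc y hy hW
  set L := LL T with hLdef
  have hT1 : (1 : ℝ) ≤ T := by linarith
  have hT0 : (0 : ℝ) < T := by linarith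
  have hLT := LL_le T hT1
  have hL0 : 0 < L := by linarith
  have hlog : 0 ≤ Real.log T := Real.log_nonneg hT1
  have hsq : Real.sqrt T ≤ T / 2 := by
    have h1 : Real.sqrt T * Real.sqrt T = T := Real.mul_self_sqrt hT0.le
    have h2 : (2 : ℝ) ≤ Real.sqrt T := by
      rw [show (2 : ℝ) = Real.sqrt 4 by rw [show (4 : ℝ) = 2 ^ 2 by norm_num]; simp]
      exact Real.sqrt_le_sqrt e9
    nlinarith
  have hTpow : T ^ (-(1 / 4) : ℝ) = Real.exp (-(Real.log T / 4)) := by
    rw [Real.rpow_def_of_pos hT0]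
    congr 1
    ring
  have hTp0 : 0 < T ^ (-(1 / 4) : ℝ) := by positivity
  have hTp1 : T ^ (-(1 / 4) : ℝ) ≤ 1 / 8 := by
    rw [hTpow]
    have : Real.exp (-(Real.log T / 4)) ≤ Real.exp (-Real.log 8) :=
      Real.exp_le_exp.mpr (by linarith)
    rw [Real.exp_neg (Real.log 8), Real.exp_log (by norm_num)] at this
    linarith
  set cc : ℂ := ⟨3 * τ * L, yc⟩ with hcc
  set R : ℝ := 5 / 2 * τ * L with hR
  have hR0 : 0 < R := by positivity
  -- geometry
  have hgeo : ∀ s ∈ closedBall cc R, |s.re - 3 * τ * L| ≤ R ∧ |s.im - yc| ≤ R := by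
    intro s hs
    rw [mem_closedBall, dist_eq_norm] at hs
    constructor
    · have := abs_re_le_norm (s - cc)
      simp only [sub_re, hcc] at this
      exact this.trans hs
    · have := abs_im_le_norm (s - cc)
      simp only [sub_im, hcc] at this
      exact this.trans hs
  have hreg : ∀ s ∈ closedBall cc R, |s.im - T| ≤ Real.sqrt T ∧ |s.re| ≤ 3 * τ * Real.log T ∧
      0 < s.im ∧ 0 < s.re := by
    intro s hs
    obtain ⟨h1, h2⟩ := hgeo s hs
    have h3 : |s.im - T| ≤ Real.sqrt T := by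
      have : s.im - T = (s.im - yc) + (yc - T) := by ring
      rw [this]
      refine (abs_add_le _ _).trans ?_
      linarith
    refine ⟨h3, ?_, ?_, ?_⟩
    · rw [abs_le] at h1 ⊢
      rw [hR] at h1
      have h5 : τ * L ≤ τ * (Real.log T / 2) := by gcongr
      have h6 : 0 ≤ τ * L := by positivity
      have h7 : 0 ≤ τ * Real.log T := by positivity
      constructor <;> nlinarith
    · rw [abs_le] at h3
      linarith [h3.1]
    · rw [abs_le] at h1
      rw [hR] at h1
      have h6 : 0 < τ * L := by positivity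
      nlinarith [h1.1]
  -- bound on the ball
  have hWpb : ∀ s : ℂ, 0 ≤ s.re → 2 * Wp τ T s.re ≤ Real.exp ((τ + 3) * L ^ 2) := by
    intro s hs
    have h1 := Wp_le τ T s.re L hτ (by rw [← hLdef, sub_self, mul_zero]; exact hs)
    have h2 : 2 * (2 * Real.exp (τ * L ^ 2 + 1 / τ + 2 * L)) =
        Real.exp (Real.log 4 + (τ * L ^ 2 + 1 / τ + 2 * L)) := by
      rw [Real.exp_add (Real.log 4), Real.exp_log (by norm_num)]
      ring
    have h3 : 2 * Wp τ T s.re ≤ Real.exp (Real.log 4 + (τ * L ^ 2 + 1 / τ + 2 * L)) := by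
      rw [← h2]
      linarith
    refine h3.trans (Real.exp_le_exp.mpr ?_)
    nlinarith
  have hlarge : B₀ ≤ (τ + 3) * L ^ 2 := by nlinarith
  have key := hZ' ((τ + 3) * L ^ 2) R cc (fun s => X τ s / E τ s) hlarge hR0 ?_ ?_ ?_ ?_
  · rw [(hN τ hτ).2.2.1 (closedBall cc R) (fun s hs => (hreg s hs).2.2.1)] at key
    refine le_trans (le_of_eq ?_) key
    congr 1
    ring
  · intro s hs
    obtain ⟨-, -, h3, -⟩ := hreg s hs
    exact (((hN τ hτ).1).analyticAt s).div (((hN τ hτ).2.1 s h3).1) ((hN τ hτ).2.1 s h3).2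
  · intro s hs
    obtain ⟨h1, h2, h3, h4⟩ := hreg s hs
    have h5 := hF s h1 h2 h3
    have h6 := norm_W_le τ T hτ s
    have h7 := Wp_nonneg τ T s.re
    have h8 : ‖X τ s / E τ s‖ ≤ ‖X τ s / E τ s - W τ T s‖ + ‖W τ T s‖ := by
      have := norm_add_le (X τ s / E τ s - W τ T s) (W τ T s)
      simpa using this
    have h9 := hWpb s h4.le
    have h10 : T ^ (-(1 / 4) : ℝ) * Wp τ T s.re ≤ 1 * Wp τ T s.re := by
      gcongr
      linarith
    linarith
  · intro s hs
    have hs' : s ∈ closedBall cc R := by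
      refine closedBall_subset_closedBall ?_ hs
      linarith
    obtain ⟨h1, h2, h3, -⟩ := hreg s hs'
    have h4 : 2 * τ * L + 8 ≤ s.re := by
      rw [mem_closedBall, dist_eq_norm] at hs
      have h5 := abs_re_le_norm (s - cc)
      simp only [sub_re, hcc] at h5
      have h6 := h5.trans hs
      rw [abs_le, hR] at h6
      have h7 : 32 ≤ τ * L := by
        rw [div_le_iff₀ hτ] at e4
        linarith
      linarith [h6.1]
    obtain ⟨h5, h6⟩ := W_sub_one_le τ T hτ s h4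
    have h7 := hF s h1 h2 h3
    have h8 : ‖X τ s / E τ s - 1‖ ≤ ‖X τ s / E τ s - W τ T s‖ + ‖W τ T s - 1‖ := by
      have := norm_add_le (X τ s / E τ s - W τ T s) (W τ T s - 1)
      simpa using this
    have h9 := Wp_nonneg τ T s.re
    have h10 : T ^ (-(1 / 4) : ℝ) * Wp τ T s.re ≤ 1 / 8 * 2 := by gcongr
    change ‖X τ s / E τ s - 1‖ ≤ 1 / 2
    linarith
  · refine ⟨⟨2 * τ * (L - η * L) + 1 / 2, y⟩, ?_, ?_⟩
    · rw [mem_closedBall, dist_eq_norm]
      refine (norm_le_abs_re_add_abs_im _).trans ?_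
      simp only [sub_re, sub_im, hcc]
      have h1 : |2 * τ * (L - η * L) + 1 / 2 - 3 * τ * L| ≤ τ * L + 2 * τ * (η * L) := by
        have h0 : 0 < τ * (η * L) := by positivity
        have h32 : 32 ≤ τ * L := by
          rw [div_le_iff₀ hτ] at e4
          linarith
        rw [abs_le]
        constructor <;> nlinarith
      have h2 : η * (2 * τ + 4) * L ≤ τ * L := by gcongr
      rw [hR]
      nlinarith
    · set s₀ : ℂ := ⟨2 * τ * (L - η * L) + 1 / 2, y⟩ with hs₀
      have hs₀mem : s₀ ∈ closedBall cc R := by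
        rw [mem_closedBall, dist_eq_norm]
        refine (norm_le_abs_re_add_abs_im _).trans ?_
        simp only [sub_re, sub_im, hcc, hs₀]
        have h1 : |2 * τ * (L - η * L) + 1 / 2 - 3 * τ * L| ≤ τ * L + 2 * τ * (η * L) := by
          have h0 : 0 < τ * (η * L) := by positivity
          have h32 : 32 ≤ τ * L := by
            rw [div_le_iff₀ hτ] at e4
            linarith
          rw [abs_le]
          constructor <;> nlinarith
        have h2 : η * (2 * τ + 4) * L ≤ τ * L := by gcongr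
        have h3 : 0 < τ * L := by positivity
        rw [hR]
        nlinarith
      obtain ⟨h1, h2, h3, -⟩ := hreg s₀ hs₀mem
      have h4 := hF s₀ h1 h2 h3
      have h5 := Wp_le τ T s₀.re (η * L) hτ (by
        rw [← hLdef, hs₀]
        simp only
        linarith)
      have h6 : T ^ (-(1 / 4) : ℝ) * (2 * Real.exp (τ * (η * L) ^ 2 + 1 / τ + 2 * (η * L))) ≤
          κ₀ / 2 * Real.exp (τ * (η * L) ^ 2) := by
        have h7 : κ₀ / 2 = Real.exp (Real.log (κ₀ / 2)) := (Real.exp_log (by positivity)).symm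
        have h8 : (2 : ℝ) = Real.exp (Real.log 2) := (Real.exp_log (by norm_num)).symm
        rw [hTpow, h7]
        nth_rewrite 1 [h8]
        rw [← Real.exp_add, ← Real.exp_add, ← Real.exp_add]
        refine Real.exp_le_exp.mpr ?_
        have h9 : 2 * (η * L) ≤ Real.log T / 8 := by
          have : η * L ≤ 1 / 8 * (Real.log T / 2) := by gcongr
          linarith
        linarith
      have h7 : κ₀ / 2 * Real.exp (τ * (η * L) ^ 2) ≤ ‖X τ s₀ / E τ s₀‖ := by
        have h8 : ‖W τ T s₀‖ ≤ ‖X τ s₀ / E τ s₀ - W τ T s₀‖ + ‖X τ s₀ / E τ s₀‖ := by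
          have := norm_sub_norm_le (W τ T s₀) (X τ s₀ / E τ s₀)
          rw [norm_sub_rev] at this
          linarith
        have h9 : T ^ (-(1 / 4) : ℝ) * Wp τ T s₀.re ≤
            T ^ (-(1 / 4) : ℝ) * (2 * Real.exp (τ * (η * L) ^ 2 + 1 / τ + 2 * (η * L))) := by
          gcongr
        linarith
      refine le_trans ?_ h7
      have h8 : κ₀ / 2 = Real.exp (Real.log (κ₀ / 2)) := (Real.exp_log (by positivity)).symm
      rw [h8, ← Real.exp_add]
      refine Real.exp_le_exp.mpr ?_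
      have h9 : τ * η ^ 2 / (2 * (τ + 3)) * ((τ + 3) * L ^ 2) = τ * η ^ 2 / 2 * L ^ 2 := by
        field_simp
      rw [h9]
      have h10 : τ * η ^ 2 / 2 * L ≤ τ * η ^ 2 / 2 * L ^ 2 := by
        gcongr
        nlinarith
      nlinarith

end Pool.Agent.H902R3.XI
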